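import Mathlib

namespace Pool.Agent.Results.MP_a437dc_al.NotFlat
open Function Complex

/-- rationally local groups: `x ↦ x ^ p` is a bijection for every prime `p` -/
def Local (T : Type) [Group T] : Prop := ∀ p : ℕ, p.Prime → Bijective fun x : T => x ^ p

/-- `η : G → L` is the rationalization of `G`: universal among maps to local groups -/
def IsLoc {G L : Type} [Group G] [Group L] (η : G →* L) : Prop :=
  Local L ∧ ∀ (T : Type) [Group T], Local T → ∀ f : G →* T, ∃! g : L →* T, g.comp η = f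

/-- `1 → LN → LE → LG → 1` is short exact -/
def Flat {N E G : Type} [Group N] [Group E] [Group G] (i : N →* E) (π : E →* G) : Prop :=
  ∃ (LN LE LG : Type) (_ : Group LN) (_ : Group LE) (_ : Group LG)
    (ηN : N →* LN) (ηE : E →* LE) (ηG : G →* LG) (Li : LN →* LE) (Lπ : LE →* LG),
    IsLoc ηN ∧ IsLoc ηE ∧ IsLoc ηG ∧ Li.comp ηN = ηE.comp i ∧ Lπ.comp ηE = ηG.comp π ∧
      Injective Li ∧ Surjective Lπ ∧ Li.range = Lπ.ker

/-- the pullback `E ×_G H` -/
def Pb {E G H : Type} [Group E] [Group G] [Group H] (π : E →* G) (α : H →* G) : Subgroup (E × H) :=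
  (π.comp (MonoidHom.fst E H)).eqLocus (α.comp (MonoidHom.snd E H))

@[ext] structure S (c : ℂ) where
  z : ℂ
  q : ℚ

variable {c : ℂ}

noncomputable instance : Mul (S c) := ⟨fun a b => ⟨a.z + exp (c * a.q) * b.z, a.q + b.q⟩⟩
instance : One (S c) := ⟨⟨0, 0⟩⟩
noncomputable instance : Inv (S c) := ⟨fun a => ⟨-exp (-(c * a.q)) * a.z, -a.q⟩⟩
@[simp] lemma mz (a b : S c) : (a * b).z = a.z + exp (c * a.q) * b.z := rfl
@[simp] lemma mq (a b : S c) : (a * b).q = a.q + b.q := rfl
@[simp] lemma oz : (1 : S c).z = 0 := rfl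
@[simp] lemma oq : (1 : S c).q = 0 := rfl
@[simp] lemma iz (a : S c) : a⁻¹.z = -exp (-(c * a.q)) * a.z := rfl
@[simp] lemma iq (a : S c) : a⁻¹.q = -a.q := rfl

noncomputable instance : Group (S c) := Group.ofLeftAxioms
  (fun a b d => by ext <;> simp [mul_add, exp_add, add_assoc, mul_assoc])
  (fun a => by ext <;> simp) fun a => by ext <;> simp

lemma pw (a : S c) (n : ℕ) :
    a ^ n = ⟨(∑ k ∈ Finset.range n, exp (c * a.q) ^ k) * a.z, n * a.q⟩ := by
  induction n with
  | zero => ext <;> simp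
  | succ n ih =>
    rw [pow_succ, ih]
    ext
    · simp [Finset.sum_range_succ, add_mul, ← exp_nat_mul, mul_left_comm]
    · simp [add_mul]

lemma loc (hc : c.re = 1) : Local (S c) := by
  intro p hp
  have p0 : (p : ℚ) ≠ 0 := by exact_mod_cast hp.ne_zero
  have g : ∀ q : ℚ, ∑ k ∈ Finset.range p, exp (c * q) ^ k ≠ 0 := fun q h => by
    have := mul_geom_sum (exp (c * q)) p
    rw [h, mul_zero, eq_comm, sub_eq_zero] at this
    have n := congrArg norm this
    rw [norm_pow, norm_one, pow_eq_one_iff_of_nonneg (norm_nonneg _) hp.ne_zero, norm_exp,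
      Real.exp_eq_one_iff] at n
    have : q = 0 := by simpa [hc] using n
    simp [this, hp.ne_zero] at h
  refine ⟨fun a b h => ?_, fun b => ⟨⟨b.z / ∑ k ∈ Finset.range p, exp (c * (b.q / p : ℚ)) ^ k,
    b.q / p⟩, ?_⟩⟩
  · simp only [pw, S.mk.injEq] at h
    have e := mul_left_cancel₀ p0 h.2
    exact S.ext (mul_left_cancel₀ (g b.q) (e ▸ h.1)) e
  · simp only [pw]
    exact S.ext (mul_div_cancel₀ _ (g _)) (mul_div_cancel₀ _ p0)

lemma locF (F : Type) [Field F] [CharZero F] : Local (Multiplicative F) := fun p hp =>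
  (Multiplicative.ofAdd.bijective.comp (mulLeft_bijective₀ (p : F) (by
    exact_mod_cast hp.ne_zero))).comp Multiplicative.toAdd.bijective |> fun h => by
      convert h using 2 with x
      simp [← nsmul_eq_mul]

lemma locId {T : Type} [Group T] (h : Local T) : IsLoc (MonoidHom.id T) :=
  ⟨h, fun _ _ _ f => ⟨f, rfl, fun _ e => e⟩⟩

noncomputable def inc : Multiplicative ℂ →* S 1 :=
  MonoidHom.mk' (fun z => ⟨z.toAdd, 0⟩) fun a b => by ext <;> simp

noncomputable def pr : S 1 →* Multiplicative ℚ :=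
  MonoidHom.mk' (fun a => Multiplicative.ofAdd a.q) fun a b => by simp

def al : Multiplicative ℤ →* Multiplicative ℚ := (Int.castAddHom ℚ).toMultiplicative

noncomputable def toS (k : ℤ) : Pb pr al →* S (1 + k * (2 * Real.pi * I)) :=
  MonoidHom.mk' (fun a => ⟨a.1.1.z, a.1.1.q⟩) fun a b => by
    have h : a.1.1.q = (a.1.2.toAdd : ℤ) := a.2
    ext
    · simp only [Subgroup.coe_mul, Prod.fst_mul, mz, h, add_mul, exp_add, Rat.cast_intCast]
      rw [mul_right_comm (k : ℂ), ← Int.cast_mul, exp_int_mul_two_pi_mul_I, mul_one]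
    · rfl

theorem result : ∃ (N E G H : Type) (_ : Group N) (_ : Group E) (_ : Group G) (_ : Group H)
    (i : N →* E) (π : E →* G) (α : H →* G),
    Injective i ∧ Surjective π ∧ i.range = π.ker ∧ Flat i π ∧
      ∃ i' : N →* Pb π α, (∀ n, (i' n : E × H) = (i n, 1)) ∧
        ¬ Flat i' ((MonoidHom.snd E H).comp (Pb π α).subtype) := by
  have a1 : Injective inc := fun a b h => congrArg S.z h
  have a2 : Surjective pr := fun q => ⟨⟨0, q.toAdd⟩, rfl⟩
  have a3 : inc.range = pr.ker := by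
    ext x
    exact ⟨by rintro ⟨z, rfl⟩; rfl, fun h => ⟨Multiplicative.ofAdd x.z, S.ext rfl (Eq.symm h)⟩⟩
  refine ⟨_, _, _, _, _, _, _, _, inc, pr, al, a1, a2, a3, ⟨_, _, _, _, _, _, _, _, _, inc, pr,
    locId (locF ℂ), locId (loc rfl), locId (locF ℚ), rfl, rfl, a1, a2, a3⟩,
    (inc.prod 1).codRestrict _ fun z => (map_one al).symm, fun _ => rfl, ?_⟩
  rintro ⟨LN, LE, LG, _, _, _, ηN, ηE, ηG, Li, Lπ, hN, hE, -, e1, -, -, -, e3⟩
  obtain ⟨r, hr, -⟩ := hN.2 _ (locF ℂ) (MonoidHom.id _)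
  have hs : ηN.comp r = MonoidHom.id _ := (hN.2 _ hN.1 ηN).unique
    (by rw [MonoidHom.comp_assoc, hr]; rfl) rfl
  obtain ⟨t, ht⟩ := (hE.1 2 Nat.prime_two).2 (ηE ⟨(⟨0, 1⟩, Multiplicative.ofAdd 1), rfl⟩)
  obtain ⟨n, hn⟩ : t * Li (ηN (Multiplicative.ofAdd 1)) * t⁻¹ ∈ Li.range := by
    rw [e3]
    exact Subgroup.Normal.conj_mem inferInstance _ (e3 ▸ ⟨_, rfl⟩) t
  have key : ∀ k : ℤ, (r n).toAdd = exp ((1 + k * (2 * Real.pi * I)) * (1 / 2 : ℚ)) := fun k => by
    obtain ⟨φ, hφ, -⟩ := hE.2 _ (loc (c := 1 + k * (2 * Real.pi * I)) (by simp)) (toS k)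
    have u : ∀ z, φ (Li (ηN z)) = ⟨z.toAdd, 0⟩ := fun z =>
      (congrArg φ (DFunLike.congr_fun e1 z)).trans (DFunLike.congr_fun hφ _)
    have v : (φ t).q = 1 / 2 := by
      have := congrArg S.q ((map_pow φ t 2).symm.trans ((congrArg φ ht).trans
        (DFunLike.congr_fun hφ _)))
      rw [sq, mq] at this
      change _ = (1 : ℚ) at this
      linarith
    have w := congrArg φ hn
    rw [show n = ηN (r n) from (DFunLike.congr_fun hs n).symm, map_mul, map_mul, map_inv, u, u,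
      eq_mul_inv_iff_mul_eq] at w
    have := congrArg S.z w
    simp only [mz, v, Rat.cast_zero, mul_zero, exp_zero, one_mul, toAdd_ofAdd, mul_one] at this
    linear_combination this
  have := (key 0).symm.trans (key 1)
  rw [add_mul, add_mul, exp_add, exp_add] at this
  have := mul_left_cancel₀ (exp_ne_zero _) this
  rw [show ((1 : ℤ) : ℂ) * (2 * Real.pi * I) * (1 / 2 : ℚ) = Real.pi * I by push_cast; ring,
    exp_pi_mul_I] at this
  norm_num at this

end Pool.Agent.Results.MP_a437dc_al.NotFlat
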